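import Mathlib
import Pool.Agent.H30Fi7

set_option autoImplicit false

namespace Pool.Agent.Results.MP_0c99a5_co.EachConnected

theorem result :
    ∀ (n : ℕ) (F : SimpleGraph (Fin n)), 3 ≤ n → F.Connected → ∀ N : ℕ,
      ∃ (m : ℕ) (G : SimpleGraph (Fin m)), N ≤ m ∧
        Function.Injective
          (fun v : Fin m =>
            {H : G.Subgraph | Nonempty (H.coe ≃g F) ∧ v ∈ H.verts}.ncard) := by
  intro n F hn hF N
  exact Pool.Agent.H30Fi.strong F (by simpa using hn) hF N

end Pool.Agent.Results.MP_0c99a5_co.EachConnected
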